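import Pool.Agent.Work.MP_7cb3ca_co.State

/-! The weighted counting argument. -/

namespace Pool.Agent.Work.MP_7cb3ca_co

open Finset

open Classical in
/-- admissible reversed words of length `i + 4` -/
noncomputable def V (c c' d e : ℕ) (L : ℕ → Finset ℕ) : ℕ → Finset (List ℕ)
  | 0 => {[e, d, c', c]}
  | i + 1 => ((V c c' d e L i ×ˢ L (i + 4)).filter (fun p =>
      okc (st c c' p.1) (code c c' p.1 p.2) = true ∧ ∀ m, ¬ Sq (p.2 :: p.1) m)).image
        (fun p => p.2 :: p.1)

variable {c c' d e : ℕ} {L : ℕ → Finset ℕ}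

lemma mem_V_succ {i : ℕ} {z : List ℕ} : z ∈ V c c' d e L (i + 1) ↔
    ∃ y a, z = a :: y ∧ y ∈ V c c' d e L i ∧ a ∈ L (i + 4) ∧
      okc (st c c' y) (code c c' y a) = true ∧ ∀ m, ¬ Sq (a :: y) m := by
  classical
  simp only [V, mem_image, mem_filter, mem_product]
  constructor
  · rintro ⟨p, ⟨⟨h1, h2⟩, h3, h4⟩, rfl⟩
    exact ⟨p.1, p.2, rfl, h1, h2, h3, h4⟩
  · rintro ⟨y, a, rfl, h1, h2, h3, h4⟩
    exact ⟨(y, a), ⟨⟨h1, h2⟩, h3, h4⟩, rfl⟩

lemma length_V {i : ℕ} {y : List ℕ} (h : y ∈ V c c' d e L i) : y.length = i + 4 := by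
  induction i generalizing y with
  | zero => simp only [V, mem_singleton] at h; subst h; rfl
  | succ i ih =>
    obtain ⟨y', a, rfl, h1, -⟩ := mem_V_succ.1 h
    simp [ih h1]

lemma drop_V {r i : ℕ} {y : List ℕ} (h : y ∈ V c c' d e L i) (hr : r ≤ i) :
    y.drop r ∈ V c c' d e L (i - r) := by
  induction r generalizing y i with
  | zero => simpa using h
  | succ r ih =>
    obtain ⟨i, rfl⟩ : ∃ k, i = k + 1 := ⟨i - 1, by omega⟩
    obtain ⟨y', a, rfl, h1, -⟩ := mem_V_succ.1 h
    simpa using ih h1 (by omega)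

/-- the four starting colours are distinct -/
def Dist (c c' d e : ℕ) : Prop := c ≠ c' ∧ c ≠ d ∧ c ≠ e ∧ c' ≠ d ∧ c' ≠ e ∧ d ≠ e

lemma st_start (h : Dist c c' d e) : st c c' [e, d, c', c] = [0, 1, 2, 3, 1, 0] := by
  obtain ⟨h1, h2, h3, h4, h5, h6⟩ := h
  simp [st, canon, ctx, h1, h2, h3, h4, h5, h6.symm]

lemma st_V (h : Dist c c' d e) {i : ℕ} {y : List ℕ} (hy : y ∈ V c c' d e L i) :
    st c c' y ∈ states := by
  induction i generalizing y with
  | zero => simp only [V, mem_singleton] at hy; subst hy; rw [st_start h]; exact start_mem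
  | succ i ih =>
    obtain ⟨y', a, rfl, h1, -, h3, -⟩ := mem_V_succ.1 hy
    rw [st_cons h.1]
    exact (F1 (ih h1) (code_le _ _) h3).1

lemma ext_of_drop {y z : List ℕ} {r : ℕ} (hl : y.length = z.length) (hd : y.drop r = z.drop r)
    (h : ∀ q < r, y.getD q 0 = z.getD q 0) : y = z := by
  apply List.ext_getElem hl
  intro q h1 h2
  by_cases hq : q < r
  · have := h q hq
    rwa [List.getD_eq_getElem _ _ h1, List.getD_eq_getElem _ _ h2] at this
  · have e1 : (y.drop r).getD (q - r) 0 = (z.drop r).getD (q - r) 0 := by rw [hd]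
    rw [List.getD_eq_getElem _ _ (by simp; omega), List.getD_eq_getElem _ _ (by simp; omega)] at e1
    simp only [List.getElem_drop] at e1
    have e2 : r + (q - r) = q := by omega
    simpa [e2] using e1

lemma getD_drop (y : List ℕ) (r q : ℕ) : (y.drop r).getD q 0 = y.getD (q + r) 0 := by
  simp [List.getD_eq_getElem?_getD, List.getElem?_drop, add_comm]

lemma Sq_inj {y z : List ℕ} {m : ℕ} (hy : Sq y m) (hz : Sq z m) (hl : y.length = z.length)
    (hd : y.drop m = z.drop m) : y = z := by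
  refine ext_of_drop hl hd fun q hq => ?_
  rw [hy.2.2 q hq, hz.2.2 q hq, ← getD_drop, ← getD_drop, hd]

lemma Sq_eq {z : List ℕ} {m : ℕ} (hz : Sq z m) : z = (z.drop m).take m ++ z.drop m := by
  have h2 := hz.2.1
  have hl : ((z.drop m).take m).length = m := by simp; omega
  refine ext_of_drop (r := m) (by simp; omega) ?_ fun q hq => ?_
  · rw [List.drop_left' hl]
  · rw [hz.2.2 q hq, List.getD_append _ _ _ _ (by omega), ← getD_drop]
    simp [List.getD_eq_getElem?_getD, hq]

lemma st_Sq {z : List ℕ} {m : ℕ} (hz : Sq z m) (hm : 5 ≤ m) :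
    st c c' z = st c c' (z.drop m) := by
  have h2 := hz.2.1
  have : z.take 5 = (z.drop m).take 5 := by
    conv_lhs => rw [Sq_eq hz]
    rw [List.take_append_of_le_length (by simp; omega), List.take_take]
    congr 1; omega
  unfold st ctx
  rw [this]

/-- weight of a word destroyed by a square of period `m` built on `b` -/
def cost (c c' m j : ℕ) (b : List ℕ) : ℕ :=
  if m = 4 then phi j (sq4 (st c c' b)) else phi j (st c c' b)

lemma cost_eq (h : c ≠ c') {z : List ℕ} {m : ℕ} (hz : Sq z m) (hm : 4 ≤ m) (j : ℕ) :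
    phi j (st c c' z) = cost c c' m j (z.drop m) := by
  unfold cost
  split_ifs with h4
  · subst h4
    rw [← st_sq4 h, ← Sq_eq hz]
  · rw [st_Sq hz (by omega)]

lemma step (h : Dist c c' d e) (hL : ∀ k, (L k).card = 4) (i j : ℕ) :
    ∑ y ∈ V c c' d e L i, phi (j + 1) (st c c' y) ≤
      ∑ y ∈ V c c' d e L (i + 1), nu j (st c c' y) +
      ∑ m ∈ Icc 4 (i + 1), ∑ b ∈ V c c' d e L (i + 1 - m), cost c c' m j b := by
  classical
  set P := (V c c' d e L i ×ˢ L (i + 4)).filter
    (fun p => okc (st c c' p.1) (code c c' p.1 p.2) = true) with hP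
  have e1 : ∑ y ∈ V c c' d e L i, phi (j + 1) (st c c' y) ≤
      ∑ p ∈ P, nu j (st c c' (p.2 :: p.1)) := by
    rw [hP, sum_filter, sum_product]
    refine sum_le_sum fun y hy => ?_
    have := local_ineq h.1 (st_V h hy) (L (i + 4)) (hL _) j
    rwa [sum_filter] at this
  have hinj : Function.Injective (fun p : List ℕ × ℕ => p.2 :: p.1) := by
    rintro ⟨y, a⟩ ⟨y', a'⟩ hh
    simp only [List.cons.injEq] at hh
    exact Prod.ext hh.2 hh.1
  rw [← sum_filter_add_sum_filter_not P (fun p => ∀ m, ¬ Sq (p.2 :: p.1) m)] at e1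
  have e2 : ∑ p ∈ P.filter (fun p => ∀ m, ¬ Sq (p.2 :: p.1) m), nu j (st c c' (p.2 :: p.1)) =
      ∑ y ∈ V c c' d e L (i + 1), nu j (st c c' y) := by
    rw [hP, filter_filter]
    conv_rhs => unfold V
    rw [sum_image (fun p _ q _ hh => hinj hh)]
  have e3 : ∑ p ∈ P.filter (fun p => ¬ ∀ m, ¬ Sq (p.2 :: p.1) m), nu j (st c c' (p.2 :: p.1)) ≤
      ∑ m ∈ Icc 4 (i + 1), ∑ p ∈ P.filter (fun p => Sq (p.2 :: p.1) m),
        phi j (st c c' (p.2 :: p.1)) := by
    simp_rw [sum_filter (s := P) (p := fun p => Sq (p.2 :: p.1) _)]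
    rw [sum_comm, sum_filter]
    refine sum_le_sum fun p hp => ?_
    split_ifs with hq
    · exact Nat.zero_le _
    · push Not at hq
      obtain ⟨m, hm⟩ := hq
      obtain ⟨hp1, hp2⟩ := mem_filter.1 hp
      obtain ⟨hp3, hp4⟩ := mem_product.1 hp1
      have hlen := length_V hp3
      have hne : p.1 ≠ [] := by intro h0; rw [h0] at hlen; simp at hlen
      have hm4 : 4 ≤ m := by
        by_contra hh
        exact (okc_spec h.1 hne hp2).2 m (by omega) hm
      have hm5 : m ≤ i + 1 := by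
        have := hm.2.1
        simp only [List.length_cons] at this
        omega
      have hst : st c c' (p.2 :: p.1) ∈ states := by
        rw [st_cons h.1]; exact (F1 (st_V h hp3) (code_le _ _) hp2).1
      have h1 : nu j (st c c' (p.2 :: p.1)) ≤ phi j (st c c' (p.2 :: p.1)) :=
        le_trans (Nat.le_add_right _ _) (F2 hst j)
      refine h1.trans ?_
      have := single_le_sum (f := fun m => if Sq (p.2 :: p.1) m then
        phi j (st c c' (p.2 :: p.1)) else 0) (fun _ _ => Nat.zero_le _)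
        (mem_Icc.2 ⟨hm4, hm5⟩)
      simpa [hm] using this
  have e4 : ∀ m ∈ Icc 4 (i + 1), ∑ p ∈ P.filter (fun p => Sq (p.2 :: p.1) m),
        phi j (st c c' (p.2 :: p.1)) ≤ ∑ b ∈ V c c' d e L (i + 1 - m), cost c c' m j b := by
    intro m hm
    obtain ⟨hm4, hm5⟩ := mem_Icc.1 hm
    have : ∑ p ∈ P.filter (fun p => Sq (p.2 :: p.1) m), phi j (st c c' (p.2 :: p.1)) =
        ∑ p ∈ P.filter (fun p => Sq (p.2 :: p.1) m), cost c c' m j ((p.2 :: p.1).drop m) :=
      sum_congr rfl fun p hp => cost_eq h.1 (mem_filter.1 hp).2 hm4 j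
    rw [this, ← sum_image (s := P.filter (fun p => Sq (p.2 :: p.1) m))
      (g := fun p => (p.2 :: p.1).drop m) (f := cost c c' m j)]
    · apply sum_le_sum_of_subset
      intro b hb
      obtain ⟨p, hp, rfl⟩ := mem_image.1 hb
      have hp3 := (mem_product.1 (mem_filter.1 (mem_filter.1 hp).1).1).1
      obtain ⟨m, rfl⟩ : ∃ k, m = k + 1 := ⟨m - 1, by omega⟩
      simpa using drop_V hp3 (r := m) (by omega)
    · intro p hp q hq hpq
      have hp' := mem_filter.1 (mem_coe.1 hp)
      have hq' := mem_filter.1 (mem_coe.1 hq)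
      have hp3 := (mem_product.1 (mem_filter.1 hp'.1).1).1
      have hq3 := (mem_product.1 (mem_filter.1 hq'.1).1).1
      apply hinj
      exact Sq_inj hp'.2 hq'.2 (by simp [length_V hp3, length_V hq3]) hpq
  have e5 := sum_le_sum e4
  omega

lemma debt_eq (j : ℕ) (b : List ℕ) :
    (if 4 ≤ j then phi (j - 4) (sq4 (st c c' b)) else 0) +
      ∑ t ∈ range (j - 4), phi t (st c c' b) = ∑ m ∈ Icc 4 j, cost c c' m (j - m) b := by
  split_ifs with hj
  · rw [← insert_Icc_add_one_left_eq_Icc hj, sum_insert (by simp)]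
    congr 1
    symm
    refine sum_nbij' (fun m => j - m) (fun t => j - t) ?_ ?_ ?_ ?_ ?_
    · intro m hm; simp only [mem_Icc, mem_range] at hm ⊢; omega
    · intro m hm; simp only [mem_Icc, mem_range] at hm ⊢; omega
    · intro m hm; simp only [mem_Icc] at hm; omega
    · intro m hm; simp only [mem_range] at hm; omega
    · intro m hm
      simp only [mem_Icc] at hm
      unfold cost; rw [if_neg (by omega)]
  · rw [show j - 4 = 0 by omega, Icc_eq_empty (by omega)]; simp

lemma exchange (C : ℕ → ℕ → ℕ) (N : ℕ) :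
    ∑ i ∈ range N, ∑ m ∈ Icc 4 (i + 1), C (i + 1 - m) m =
      ∑ t ∈ range (N + 1), ∑ m ∈ Icc 4 (N - t), C t m := by
  rw [sum_sigma', sum_sigma']
  refine sum_nbij' (fun p => ⟨p.1 + 1 - p.2, p.2⟩) (fun p => ⟨p.1 + p.2 - 1, p.2⟩) ?_ ?_ ?_ ?_ ?_
  · rintro ⟨i, m⟩ hp; simp only [mem_sigma, mem_Icc, mem_range] at hp ⊢; omega
  · rintro ⟨i, m⟩ hp; simp only [mem_sigma, mem_Icc, mem_range] at hp ⊢; omega
  · rintro ⟨i, m⟩ hp
    simp only [mem_sigma, mem_Icc, mem_range] at hp
    simp only [Sigma.mk.injEq, heq_eq_eq, and_true]; omega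
  · rintro ⟨i, m⟩ hp
    simp only [mem_sigma, mem_Icc, mem_range] at hp
    simp only [Sigma.mk.injEq, heq_eq_eq, and_true]; omega
  · rintro ⟨i, m⟩ hp; rfl

lemma total (h : Dist c c' d e) (hL : ∀ k, (L k).card = 4) (N : ℕ) :
    ∑ t ∈ range (N + 1), fin (N - t) * (V c c' d e L t).card <
      ∑ y ∈ V c c' d e L N, phi 0 (st c c' y) := by
  set A : ℕ → ℕ := fun t => ∑ y ∈ V c c' d e L t, phi (N - t) (st c c' y) with hA
  set B : ℕ → ℕ := fun t => ∑ y ∈ V c c' d e L t, nu (N - t) (st c c' y) with hB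
  set C : ℕ → ℕ → ℕ := fun t m => ∑ b ∈ V c c' d e L t, cost c c' m (N - t - m) b with hC
  have h1 : ∀ t, B t + (∑ m ∈ Icc 4 (N - t), C t m + fin (N - t) * (V c c' d e L t).card)
      ≤ A t := by
    intro t
    simp only [hA, hB, hC]
    rw [sum_comm, mul_comm, ← smul_eq_mul, ← sum_const, ← sum_add_distrib, ← sum_add_distrib]
    refine sum_le_sum fun y hy => ?_
    rw [← debt_eq]
    exact F2 (st_V h hy) _
  have h2 : ∀ i ∈ range N, A i ≤ B (i + 1) + ∑ m ∈ Icc 4 (i + 1), C (i + 1 - m) m := by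
    intro i hi
    have hi' := mem_range.1 hi
    have := step h hL i (N - (i + 1))
    simp only [hA, hB, hC]
    rw [show N - i = N - (i + 1) + 1 by omega]
    refine this.trans (le_of_eq ?_)
    congr 1
    refine sum_congr rfl fun m hm => ?_
    rw [show N - (i + 1 - m) - m = N - (i + 1) by have := mem_Icc.1 hm; omega]
  have h3 := sum_le_sum h2
  rw [sum_add_distrib, exchange] at h3
  have h4 := sum_le_sum (fun t (_ : t ∈ range (N + 1)) => h1 t)
  rw [sum_add_distrib, sum_add_distrib, sum_range_succ' B, sum_range_succ A] at h4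
  have h5 : 0 < B 0 := by
    simp only [hB, V, sum_singleton]
    rw [st_start h]; exact F5 _
  have h6 : A N = ∑ y ∈ V c c' d e L N, phi 0 (st c c' y) := by simp [hA]
  omega

end Pool.Agent.Work.MP_7cb3ca_co
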