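import Pool.Agent.Work.MP_7cb3ca_co.Cert
import Mathlib.Data.List.GetD

namespace Pool.Agent.Work.MP_7cb3ca_co

open Finset

def phi (j : ℕ) (S : List ℕ) : ℕ := val j (states.idxOf S)
def nu (j : ℕ) (S : List ℕ) : ℕ := net j (states.idxOf S)
def gainS (j : ℕ) (S : List ℕ) (x : ℕ) : ℕ := if okc S x then nu j (nxt S x) else 0

lemma idx_lt {S : List ℕ} (h : S ∈ states) : states.idxOf S < 180 := by
  rw [← states_length]; exact List.idxOf_lt_length_of_mem h

lemma getD_idx {S : List ℕ} (h : S ∈ states) : states.getD (states.idxOf S) [] = S := by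
  have h1 : states.idxOf S < states.length := List.idxOf_lt_length_of_mem h
  rw [List.getD_eq_getElem _ _ h1]
  exact List.getElem_idxOf h1

lemma c1 {i : ℕ} (hi : i < 180) :
    states.idxOf (states.getD i []) = i ∧ states.idxOf (sq4 (states.getD i [])) = s4 i ∧
    ∀ x ≤ (states.getD i []).length,
      (okc (states.getD i []) x = true → tr i x < 180 ∧
        states.getD (tr i x) [] = nxt (states.getD i []) x) ∧
      (okc (states.getD i []) x = false → tr i x = 255) := by
  have h := chk1_ok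
  unfold chk1 at h
  rw [List.all_eq_true] at h
  have h1 := h i (List.mem_range.2 hi)
  simp only [Bool.and_eq_true, beq_iff_eq, List.all_eq_true, List.mem_range] at h1
  refine ⟨h1.1.1, h1.1.2, fun x hx => ?_⟩
  have h2 := h1.2 x (by omega)
  constructor
  · intro hk
    rw [if_pos hk] at h2
    simpa using h2
  · intro hk
    rw [if_neg (by rw [hk]; simp)] at h2
    simpa using h2

lemma getD_mem {i : ℕ} (hi : i < 180) : states.getD i [] ∈ states := by
  have h1 : i < states.length := by rw [states_length]; exact hi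
  rw [List.getD_eq_getElem _ _ h1]
  exact List.getElem_mem h1

lemma F1 {S : List ℕ} (h : S ∈ states) {x : ℕ} (hx : x ≤ S.length) (hk : okc S x = true) :
    nxt S x ∈ states ∧ states.idxOf (nxt S x) = tr (states.idxOf S) x ∧
      tr (states.idxOf S) x < 180 := by
  have h1 := c1 (idx_lt h)
  rw [getD_idx h] at h1
  obtain ⟨h2, h3⟩ := (h1.2.2 x hx).1 hk
  refine ⟨h3 ▸ getD_mem h2, ?_, h2⟩
  rw [← h3]
  exact (c1 h2).1

lemma gain_eq {S : List ℕ} (h : S ∈ states) {x : ℕ} (hx : x ≤ S.length) (j : ℕ) :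
    gainS j S x = gain (net j) (states.idxOf S) x := by
  unfold gainS gain
  by_cases hk : okc S x = true
  · obtain ⟨_, h2, h3⟩ := F1 h hx hk
    rw [if_pos hk, if_neg (by omega), nu, h2]
  · have h1 := c1 (idx_lt h)
    rw [getD_idx h] at h1
    have h2 := (h1.2.2 x hx).2 (by simpa using hk)
    rw [if_neg hk, if_pos h2]

lemma sum_range_list (f : ℕ → ℕ) (n : ℕ) :
    ((List.range n).map f).sum = ∑ t ∈ range n, f t := by
  induction n with
  | zero => simp
  | succ n ih => rw [List.range_succ, List.map_append, List.sum_append, ih, sum_range_succ]; simp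

lemma c2 {i : ℕ} (hi : i < 180) {j : ℕ} (hj : j < 12) :
    debt j i ≤ val j i ∧ locE (net j) (val (j + 1) i) i (states.getD i []).length = true := by
  have h := chk2_ok
  unfold chk2 at h
  rw [List.all_eq_true] at h
  have h1 := h i (List.mem_range.2 hi)
  rw [List.all_eq_true] at h1
  have h2 := h1 j (List.mem_range.2 hj)
  simpa using h2

lemma c3 {i : ℕ} (hi : i < 180) :
    ∑ t ∈ range 8, val t i + 2 ≤ tab 8 i ∧ tab 8 (s4 i) ≤ 15 * tab 8 i ∧
    locE mu (32 * tab 8 i) i (states.getD i []).length = true ∧ tab 0 i ≤ 1 ∧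
      (tab 0 i = 0 ∨ closeB (states.getD i []) = true) := by
  have h := chk3_ok
  unfold chk3 at h
  rw [List.all_eq_true] at h
  have h1 := h i (List.mem_range.2 hi)
  simp only [Bool.and_eq_true, decide_eq_true_eq, Bool.or_eq_true, beq_iff_eq,
    sum_range_list] at h1
  exact ⟨h1.1.1.1.1, h1.1.1.1.2, h1.1.1.2, h1.1.2, h1.2⟩

lemma sum_val (i k : ℕ) :
    ∑ t ∈ range (8 + k), val t i + tab 8 i = ∑ t ∈ range 8, val t i + 2 ^ k * tab 8 i := by
  induction k with
  | zero => simp
  | succ k ih =>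
    rw [← add_assoc, sum_range_succ]
    have : val (8 + k) i = 2 ^ k * tab 8 i := by
      unfold val
      split_ifs with h
      · have : k = 0 := by omega
        subst this; simp
      · congr 2; omega
    rw [this, pow_succ, show 2 ^ k * 2 * tab 8 i = 2 ^ k * tab 8 i + 2 ^ k * tab 8 i by ring]
    omega

lemma net_debt {i : ℕ} (hi : i < 180) (j : ℕ) : net j i + debt j i ≤ val j i := by
  by_cases hj : j < 12
  · have := (c2 hi hj).1
    unfold net; rw [if_pos hj]; omega
  · obtain ⟨k, rfl⟩ : ∃ k, j = 12 + k := ⟨j - 12, by omega⟩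
    obtain ⟨h1, h2, -⟩ := c3 hi
    have e1 : 12 + k - 12 = k := by omega
    have e2 : 12 + k - 4 = 8 + k := by omega
    have e3 : val (8 + k) (s4 i) = 2 ^ k * tab 8 (s4 i) := by
      unfold val
      split_ifs with h
      · have : k = 0 := by omega
        subst this; simp
      · congr 2; omega
    have e4 : val (12 + k) i = 2 ^ k * (16 * tab 8 i) := by
      unfold val
      rw [if_neg (by omega), show 12 + k - 8 = k + 4 by omega, pow_add]; ring
    have e5 := sum_val i k
    have e6 : fin (12 + k) = 2 := by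
      unfold fin; rw [if_pos (by omega), if_pos (by omega)]
    unfold net debt
    rw [if_neg hj, if_pos (by omega), e1, e2, e3, e4, sum_range_list, e6]
    have e7 : 2 ^ k * mu i + 2 ^ k * tab 8 (s4 i) = 2 ^ k * (15 * tab 8 i) := by
      rw [← mul_add]; congr 1; unfold mu; omega
    have e8 : 2 ^ k * (16 * tab 8 i) = 2 ^ k * (15 * tab 8 i) + 2 ^ k * tab 8 i := by ring
    omega

lemma F2 {S : List ℕ} (h : S ∈ states) (j : ℕ) :
    nu j S + ((if 4 ≤ j then phi (j - 4) (sq4 S) else 0) + ∑ t ∈ range (j - 4), phi t S + fin j)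
      ≤ phi j S := by
  have h1 := net_debt (idx_lt h) j
  have h2 := (c1 (idx_lt h)).2.1
  rw [getD_idx h] at h2
  unfold debt at h1
  rw [sum_range_list] at h1
  unfold nu phi
  rw [h2]
  exact h1

lemma locE_spec {f : ℕ → ℕ} {w i len : ℕ} (h : locE f w i len = true) :
    ∃ τ, τ ≤ gain f i len ∧ w + ∑ x ∈ range len, (τ - gain f i x) ≤ 4 * τ := by
  unfold locE at h
  rw [List.any_eq_true] at h
  obtain ⟨x, -, hx⟩ := h
  unfold loc at hx
  simp only [Bool.and_eq_true, decide_eq_true_eq, sum_range_list] at hx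
  exact ⟨_, hx⟩

lemma loc_all {i : ℕ} (hi : i < 180) (j : ℕ) :
    ∃ τ, τ ≤ gain (net j) i (states.getD i []).length ∧
      val (j + 1) i + ∑ x ∈ range (states.getD i []).length, (τ - gain (net j) i x) ≤ 4 * τ := by
  by_cases hj : j < 12
  · exact locE_spec (c2 hi hj).2
  · obtain ⟨k, rfl⟩ : ∃ k, j = 12 + k := ⟨j - 12, by omega⟩
    obtain ⟨τ, h1, h2⟩ := locE_spec (c3 hi).2.2.1
    have hg : ∀ x, gain (net (12 + k)) i x = 2 ^ k * gain mu i x := by
      intro x
      unfold gain
      split_ifs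
      · simp
      · unfold net; rw [if_neg hj]; congr 2; omega
    refine ⟨2 ^ k * τ, ?_, ?_⟩
    · rw [hg]; exact Nat.mul_le_mul_left _ h1
    · have e4 : val (12 + k + 1) i = 2 ^ k * (32 * tab 8 i) := by
        unfold val
        rw [if_neg (by omega), show 12 + k + 1 - 8 = k + 5 by omega, pow_add]; ring
      simp_rw [hg, ← Nat.mul_sub]
      rw [e4, ← mul_sum, ← mul_add, show 4 * (2 ^ k * τ) = 2 ^ k * (4 * τ) by ring]
      exact Nat.mul_le_mul_left _ h2

lemma F3 {S : List ℕ} (h : S ∈ states) (j : ℕ) :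
    ∃ τ, τ ≤ gainS j S S.length ∧
      phi (j + 1) S + ∑ x ∈ range S.length, (τ - gainS j S x) ≤ 4 * τ := by
  obtain ⟨τ, h1, h2⟩ := loc_all (idx_lt h) j
  rw [getD_idx h] at h1 h2
  refine ⟨τ, by rw [gain_eq h le_rfl]; exact h1, ?_⟩
  have : ∑ x ∈ range S.length, (τ - gainS j S x) =
      ∑ x ∈ range S.length, (τ - gain (net j) (states.idxOf S) x) :=
    sum_congr rfl fun x hx => by rw [gain_eq h (mem_range.1 hx).le]
  rw [this]
  exact h2

lemma F4 {S : List ℕ} (h : S ∈ states) :
    phi 0 S ≤ 1 ∧ (phi 0 S ≠ 0 → closeB S = true) := by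
  obtain ⟨-, -, -, h1, h2⟩ := c3 (idx_lt h)
  rw [getD_idx h] at h2
  have e : phi 0 S = tab 0 (states.idxOf S) := by unfold phi val; simp
  rw [e]
  exact ⟨h1, fun h0 => h2.resolve_left h0⟩

lemma start_mem : [0, 1, 2, 3, 1, 0] ∈ states := by decide +kernel

lemma F5 (j : ℕ) : 0 < nu j [0, 1, 2, 3, 1, 0] := by
  have e : states.idxOf [0, 1, 2, 3, 1, 0] = 0 := by decide +kernel
  have h := chk4_ok
  unfold chk4 at h
  simp only [Bool.and_eq_true, decide_eq_true_eq, List.all_eq_true, List.mem_range] at h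
  unfold nu
  rw [e]
  by_cases hj : j < 12
  · exact h.1 j hj
  · unfold net; rw [if_neg hj]; exact Nat.mul_pos (by positivity) h.2

end Pool.Agent.Work.MP_7cb3ca_co
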