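import Pool.Agent.Work.MP_7cb3ca_co.Word
import Mathlib.Combinatorics.SimpleGraph.CycleGraph
import Mathlib.Combinatorics.SimpleGraph.Paths

/-! Translation to paths in the cycle graph. -/

namespace Pool.Agent.Work.MP_7cb3ca_co

open SimpleGraph

lemma fin_step {n : ℕ} {a b : Fin (n + 2)} (h : a - b = 1) : a.val = (b.val + 1) % (n + 2) := by
  have : a = b + 1 := by rw [← h]; abel
  rw [this, Fin.val_add]; simp

lemma path_up {n : ℕ} {u v : Fin (n + 2)} (p : (cycleGraph (n + 2)).Walk u v) (hp : p.IsPath)
    (h0 : p.getVert 1 - p.getVert 0 = 1) :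
    ∀ i, i < p.length → p.getVert (i + 1) - p.getVert i = 1 := by
  intro i
  induction i with
  | zero => intro _; exact h0
  | succ i ih =>
    intro hi
    have h1 := ih (by omega)
    rcases cycleGraph_adj.1 (p.adj_getVert_succ hi) with h2 | h2
    · exfalso
      have h3 : p.getVert (i + 1 + 1) = p.getVert i := by
        have : p.getVert (i + 1) - p.getVert (i + 1 + 1) = p.getVert (i + 1) - p.getVert i := by
          rw [h1, h2]
        exact sub_right_injective this
      have := hp.getVert_injOn (show i + 1 + 1 ∈ {i | i ≤ p.length} by simp; omega)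
        (show i ∈ {i | i ≤ p.length} by simp; omega) h3
      omega
    · exact h2

lemma path_val {n : ℕ} {u v : Fin (n + 2)} (p : (cycleGraph (n + 2)).Walk u v) (hp : p.IsPath)
    (h0 : p.getVert 1 - p.getVert 0 = 1) :
    ∀ i, i ≤ p.length → (p.getVert i).val = (u.val + i) % (n + 2) := by
  intro i
  induction i with
  | zero => intro _; simp [Nat.mod_eq_of_lt u.2]
  | succ i ih =>
    intro hi
    rw [fin_step (path_up p hp h0 i (by omega)), ih (by omega)]
    simp [add_assoc]

lemma path_dir {n : ℕ} {u v : Fin (n + 2)} (p : (cycleGraph (n + 2)).Walk u v) (hp : p.IsPath)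
    (hl : 0 < p.length) :
    p.getVert 1 - p.getVert 0 = 1 ∨ p.reverse.getVert 1 - p.reverse.getVert 0 = 1 := by
  by_contra hcon
  push Not at hcon
  obtain ⟨h1, h2⟩ := hcon
  have hdown : ∀ i, i < p.length → p.getVert i - p.getVert (i + 1) = 1 := by
    intro i
    induction i with
    | zero => intro hi; exact (cycleGraph_adj.1 (p.adj_getVert_succ hi)).resolve_right h1
    | succ i ih =>
      intro hi
      have k1 := ih (by omega)
      rcases cycleGraph_adj.1 (p.adj_getVert_succ hi) with k2 | k2
      · exact k2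
      · exfalso
        have h3 : p.getVert (i + 1 + 1) = p.getVert i := by
          have : p.getVert (i + 1 + 1) - p.getVert (i + 1) =
              p.getVert i - p.getVert (i + 1) := by rw [k1, k2]
          exact sub_left_injective this
        have := hp.getVert_injOn (show i + 1 + 1 ∈ {i | i ≤ p.length} by simp; omega)
          (show i ∈ {i | i ≤ p.length} by simp; omega) h3
        omega
  apply h2
  rw [Walk.getVert_reverse, Walk.getVert_reverse]
  have := hdown (p.length - 1) (by omega)
  rwa [show p.length - 1 + 1 = p.length - 0 by omega] at this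

theorem four_choosable (n : ℕ) (hn : 3 ≤ n) (L : Fin n → Finset ℕ) (hL : ∀ v, 4 ≤ (L v).card) :
    ∃ c : Fin n → ℕ, (∀ v, c v ∈ L v) ∧
      ∀ (u v : Fin n) (p : (cycleGraph n).Walk u v) (m : ℕ), p.IsPath → 1 ≤ m →
        p.length + 1 = 2 * m → ¬ ∀ i < m, c (p.getVert i) = c (p.getVert (i + m)) := by
  obtain ⟨n, rfl⟩ : ∃ k, n = k + 2 := ⟨n - 2, by omega⟩
  have hsub : ∀ v, ∃ A ⊆ L v, A.card = 4 := fun v => Finset.exists_subset_card_eq (hL v)
  choose A hA1 hA2 using hsub
  obtain ⟨W, hW1, hW2⟩ := exists_cycFree (n + 2) hn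
    (fun k => A ⟨k % (n + 2), Nat.mod_lt _ (by omega)⟩) (fun k => hA2 _)
  refine ⟨fun v => W v.val, fun v => ?_, ?_⟩
  · have := hW1 v.val v.2
    simp only [Nat.mod_eq_of_lt v.2] at this
    exact hA1 v this
  have key : ∀ (u v : Fin (n + 2)) (p : (cycleGraph (n + 2)).Walk u v) (m : ℕ), p.IsPath →
      1 ≤ m → p.length + 1 = 2 * m → p.getVert 1 - p.getVert 0 = 1 →
      ¬ ∀ i < m, W (p.getVert i).val = W (p.getVert (i + m)).val := by
    intro u v p m hp hm hlen h0 hrep
    have hlt : p.length < n + 2 := by simpa using hp.length_lt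
    refine hW2 u.val u.2 m hm (by omega) fun j hj => ?_
    have := hrep j hj
    rw [path_val p hp h0 j (by omega), path_val p hp h0 (j + m) (by omega)] at this
    rwa [show u.val + m + j = u.val + (j + m) by omega]
  intro u v p m hp hm hlen hrep
  rcases path_dir p hp (by omega) with h0 | h0
  · exact key u v p m hp hm hlen h0 hrep
  · refine key v u p.reverse m hp.reverse hm (by simpa using hlen) h0 fun i hi => ?_
    rw [Walk.getVert_reverse, Walk.getVert_reverse]
    have := hrep (m - 1 - i) (by omega)
    rw [show p.length - i = m - 1 - i + m by omega, show p.length - (i + m) = m - 1 - i by omega]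
    exact this.symm

end Pool.Agent.Work.MP_7cb3ca_co
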