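import Pool.Agent.Work.MP_7cb3ca_co.Graph
import Mathlib.Data.Set.Card

namespace Pool.Agent.Results.MP_7cb3ca_co.FourChoosable

/-- Every cycle `C_n` (`n ≥ 3`) is nonrepetitively 4-choosable: for every assignment of lists of
at least four colours there is a colouring from the lists such that no path on `2 m` vertices
(`m ≥ 1`) has the colour of its `i`-th vertex equal to that of its `(i + m)`-th vertex for all
`i < m`. -/
theorem result :
    ∀ n : ℕ, 3 ≤ n → ∀ L : Fin n → Set ℕ, (∀ v, 4 ≤ (L v).encard) →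
      ∃ c : Fin n → ℕ, (∀ v, c v ∈ L v) ∧
        ∀ (u v : Fin n) (p : (SimpleGraph.cycleGraph n).Walk u v) (m : ℕ), p.IsPath → 1 ≤ m →
          p.length + 1 = 2 * m → ¬ ∀ i < m, c (p.getVert i) = c (p.getVert (i + m)) := by
  intro n hn L hL
  have h : ∀ v, ∃ A : Finset ℕ, (A : Set ℕ) ⊆ L v ∧ 4 ≤ A.card := by
    intro v
    obtain ⟨t, ht1, ht2⟩ := Set.exists_subset_encard_eq (hL v)
    have hfin : t.Finite := Set.finite_of_encard_eq_coe ht2
    refine ⟨hfin.toFinset, by simpa using ht1, ?_⟩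
    have := hfin.encard_eq_coe_toFinset_card
    rw [ht2] at this
    exact_mod_cast this.le
  choose A hA1 hA2 using h
  obtain ⟨c, hc1, hc2⟩ := Pool.Agent.Work.MP_7cb3ca_co.four_choosable n hn A hA2
  exact ⟨c, fun v => hA1 v (hc1 v), hc2⟩

end Pool.Agent.Results.MP_7cb3ca_co.FourChoosable
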