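import Pool.Agent.Work.MP_7cb3ca_co.Facts

/-! States of actual words and the local inequality. -/

namespace Pool.Agent.Work.MP_7cb3ca_co

open Finset

lemma idxOf_map_inj (f : ℕ → ℕ) (l : List ℕ) (b : ℕ)
    (hf : ∀ a ∈ l, f a = f b → a = b) : (l.map f).idxOf (f b) = l.idxOf b := by
  induction l with
  | nil => simp
  | cons a l ih =>
    simp only [List.map_cons, List.idxOf_cons]
    by_cases h : a = b
    · subst h; simp
    · have h2 : f a ≠ f b := fun e => h (hf a (by simp) e)
      have e1 : (f a == f b) = false := by simpa using h2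
      have e2 : (a == b) = false := by simpa using h
      rw [e1, e2, ih (fun a ha => hf a (by simp [ha]))]

lemma canon_map (f : ℕ → ℕ) (l : List ℕ) (hf : ∀ a ∈ l, ∀ b ∈ l, f a = f b → a = b) :
    canon (l.map f) = canon l := by
  unfold canon
  rw [List.map_map]
  apply List.map_congr_left
  intro b hb
  exact idxOf_map_inj f l b (fun a ha => hf a ha b hb)

lemma idxOf_inj' {K : List ℕ} {a b : ℕ} (hb : b ∈ K) (h : K.idxOf a = K.idxOf b) : a = b := by
  have h1 : K.idxOf b < K.length := List.idxOf_lt_length_of_mem hb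
  have ha : a ∈ K := List.idxOf_lt_length_iff.1 (h ▸ h1)
  exact (List.idxOf_inj ha).1 h

variable (c c' : ℕ)

/-- the context of a (reversed) word -/
def ctx (y : List ℕ) : List ℕ := c :: c' :: y.take 5
def st (y : List ℕ) : List ℕ := canon (ctx c c' y)
def code (y : List ℕ) (a : ℕ) : ℕ := (ctx c c' y).idxOf a

variable {c c'}

lemma code_c (y : List ℕ) : code c c' y c = 0 := by simp [code, ctx]
lemma code_c' (h : c ≠ c') (y : List ℕ) : code c c' y c' = 1 := by
  simp [code, ctx, h]

lemma st_drop (y : List ℕ) : (st c c' y).drop 2 = (y.take 5).map (code c c' y) := rfl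

lemma st_length (y : List ℕ) : (st c c' y).length = (ctx c c' y).length := by
  simp [st, canon]

lemma code_le (y : List ℕ) (a : ℕ) : code c c' y a ≤ (st c c' y).length := by
  rw [st_length]; exact List.idxOf_le_length

lemma st_cons (h : c ≠ c') (y : List ℕ) (a : ℕ) :
    st c c' (a :: y) = nxt (st c c' y) (code c c' y a) := by
  unfold nxt
  rw [st_drop]
  have e : (0 :: 1 :: (code c c' y a :: (y.take 5).map (code c c' y)).take 5) =
      (ctx c c' (a :: y)).map (code c c' y) := by
    simp only [ctx, List.map_cons, code_c, code_c' h]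
    congr 2
    rw [← List.map_cons, ← List.map_take]
    congr 1
    simp [List.take_take]
  rw [e, canon_map]
  · rfl
  · intro u hu v hv huv
    have hmem : ∀ w ∈ ctx c c' (a :: y), w = a ∨ w ∈ ctx c c' y := by
      intro w hw
      simp only [ctx, List.take_succ_cons, List.mem_cons] at hw ⊢
      rcases hw with hw | hw | hw | hw
      · tauto
      · tauto
      · tauto
      · right; right; right
        exact List.mem_of_mem_take (i := 4) (by rwa [List.take_take])
    rcases hmem v hv with rfl | hv'
    · rcases hmem u hu with rfl | hu'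
      · rfl
      · exact (idxOf_inj' hu' huv.symm).symm
    · exact idxOf_inj' hv' huv

lemma st_sq4 (h : c ≠ c') (y : List ℕ) :
    st c c' (y.take 4 ++ y) = sq4 (st c c' y) := by
  unfold sq4
  rw [st_drop]
  have e0 : (y.take 4 ++ y).take 5 = ((y.take 5).take 4 ++ y.take 5).take 5 := by
    rw [List.take_take, List.take_append, List.take_append, List.take_take]
    simp [List.take_take]
  have e : (0 :: 1 :: (((y.take 5).map (code c c' y)).take 4 ++
      (y.take 5).map (code c c' y)).take 5) =
      (ctx c c' (y.take 4 ++ y)).map (code c c' y) := by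
    simp only [ctx, List.map_cons, code_c, code_c' h]
    congr 2
    rw [e0, ← List.map_take, ← List.map_append, ← List.map_take]
  rw [e, canon_map]
  · rfl
  · intro u _ v hv huv
    refine idxOf_inj' ?_ huv
    simp only [ctx, List.mem_cons] at hv ⊢
    rcases hv with hv | hv | hv
    · tauto
    · tauto
    · right; right
      rw [e0] at hv
      have := List.mem_of_mem_take hv
      rcases List.mem_append.1 this with h1 | h1
      · exact List.mem_of_mem_take h1
      · exact h1

/-- the reversed word starts with a square of period `m` -/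
def Sq (y : List ℕ) (m : ℕ) : Prop :=
  1 ≤ m ∧ 2 * m ≤ y.length ∧ ∀ j < m, y.getD j 0 = y.getD (j + m) 0

lemma sqB_of_Sq (f : ℕ → ℕ) {a : ℕ} {y : List ℕ} {m : ℕ} (hm : m ≤ 3) (h : Sq (a :: y) m) :
    sqB (f a :: (y.take 5).map f) m = true := by
  obtain ⟨h1, h2, h3⟩ := h
  have e : f a :: (y.take 5).map f = ((a :: y).take 6).map f := by simp
  rw [e]
  unfold sqB
  simp only [Bool.and_eq_true, decide_eq_true_eq, List.all_eq_true, List.mem_range, beq_iff_eq]
  have hl : (((a :: y).take 6).map f).length = min 6 (a :: y).length := by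
    rw [List.length_map, List.length_take]
  refine ⟨by rw [hl]; omega, fun j hj => ?_⟩
  have key : ∀ i, i < 2 * m → (((a :: y).take 6).map f).getD i 0 = f ((a :: y).getD i 0) := by
    intro i hi
    rw [List.getD_eq_getElem _ _ (by rw [hl]; omega), List.getD_eq_getElem _ _ (by omega)]
    rw [List.getElem_map, List.getElem_take]
  rw [key j (by omega), key (j + m) (by omega), h3 j hj]

lemma okc_spec (h : c ≠ c') {y : List ℕ} {a : ℕ} (hy : y ≠ [])
    (hk : okc (st c c' y) (code c c' y a) = true) :
    ¬ (a = c' ∧ y.getD 0 0 = c) ∧ ∀ m ≤ 3, ¬ Sq (a :: y) m := by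
  unfold okc at hk
  rw [st_drop] at hk
  simp only [Bool.and_eq_true, Bool.not_eq_true', Bool.and_eq_false_imp, beq_iff_eq,
    beq_eq_false_iff_ne] at hk
  obtain ⟨⟨⟨k0, k1⟩, k2⟩, k3⟩ := hk
  refine ⟨?_, fun m hm hs => ?_⟩
  · rintro ⟨rfl, h2⟩
    apply k0 (code_c' h y)
    obtain ⟨b, t, rfl⟩ := List.exists_cons_of_ne_nil hy
    simp only [List.getD_cons_zero] at h2
    subst h2
    simp [code_c]
  · have h4 := sqB_of_Sq (code c c' y) hm hs
    have h5 := hs.1
    interval_cases m
    · rw [k1] at h4; exact absurd h4 (by simp)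
    · rw [k2] at h4; exact absurd h4 (by simp)
    · rw [k3] at h4; exact absurd h4 (by simp)

lemma closeB_spec {y : List ℕ} (hk : closeB (st c c' y) = true) :
    ∀ m ≤ 3, ¬ Sq (c :: y) m := by
  unfold closeB at hk
  rw [st_drop] at hk
  simp only [Bool.and_eq_true, Bool.not_eq_true'] at hk
  obtain ⟨⟨k1, k2⟩, k3⟩ := hk
  intro m hm hs
  have h4 := sqB_of_Sq (code c c' y) hm hs
  rw [code_c] at h4
  have h5 := hs.1
  interval_cases m
  · rw [k1] at h4; exact absurd h4 (by simp)
  · rw [k2] at h4; exact absurd h4 (by simp)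
  · rw [k3] at h4; exact absurd h4 (by simp)

/-- local inequality -/
lemma local_ineq (h : c ≠ c') {y : List ℕ} (hy : st c c' y ∈ states) (L : Finset ℕ)
    (hL : L.card = 4) (j : ℕ) :
    phi (j + 1) (st c c' y) ≤
      ∑ a ∈ L.filter (fun a => okc (st c c' y) (code c c' y a) = true),
        nu j (st c c' (a :: y)) := by
  obtain ⟨τ, h1, h2⟩ := F3 hy j
  have e1 : ∑ a ∈ L.filter (fun a => okc (st c c' y) (code c c' y a) = true),
        nu j (st c c' (a :: y)) = ∑ a ∈ L, gainS j (st c c' y) (code c c' y a) := by
    rw [sum_filter]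
    refine sum_congr rfl fun a _ => ?_
    rw [st_cons h]; rfl
  have e2 : 4 * τ ≤ ∑ a ∈ L, gainS j (st c c' y) (code c c' y a) +
      ∑ a ∈ L, (τ - gainS j (st c c' y) (code c c' y a)) := by
    rw [← sum_add_distrib, ← hL, ← smul_eq_mul, ← sum_const]
    exact sum_le_sum fun a _ => by omega
  have e3 : ∑ a ∈ L, (τ - gainS j (st c c' y) (code c c' y a)) ≤
      ∑ x ∈ range (st c c' y).length, (τ - gainS j (st c c' y) x) := by
    classical
    have e4 : ∑ a ∈ L, (τ - gainS j (st c c' y) (code c c' y a)) =
        ∑ a ∈ L.filter (fun a => a ∈ ctx c c' y), (τ - gainS j (st c c' y) (code c c' y a)) := by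
      rw [sum_filter]
      refine sum_congr rfl fun a _ => ?_
      split_ifs with ha
      · rfl
      · have : code c c' y a = (st c c' y).length := by
          rw [st_length]; exact List.idxOf_eq_length ha
        rw [this]; omega
    rw [e4, ← sum_image (s := L.filter (fun a => a ∈ ctx c c' y)) (g := code c c' y)
      (f := fun x => τ - gainS j (st c c' y) x)]
    · apply sum_le_sum_of_subset
      intro x hx
      obtain ⟨a, ha, rfl⟩ := mem_image.1 hx
      rw [mem_range, st_length]
      exact List.idxOf_lt_length_of_mem (mem_filter.1 ha).2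
    · intro a _ b hb hab
      exact idxOf_inj' (mem_filter.1 (mem_coe.1 hb)).2 hab
  omega

end Pool.Agent.Work.MP_7cb3ca_co
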