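import Pool.Agent.Work.MP_7cb3ca_co.Count

/-! Existence of a cyclically square-free choice from lists of size four. -/

namespace Pool.Agent.Work.MP_7cb3ca_co

open Finset

variable {c c' d e : ℕ} {L : ℕ → Finset ℕ}

lemma sqfree_V (h : Dist c c' d e) {i : ℕ} {y : List ℕ} (hy : y ∈ V c c' d e L i) :
    ∀ r m, ¬ Sq (y.drop r) m := by
  induction i generalizing y with
  | zero =>
    simp only [V, mem_singleton] at hy; subst hy
    obtain ⟨h1, h2, h3, h4, h5, h6⟩ := h
    rintro r m ⟨k1, k2, k3⟩
    have k4 := k3 0 (by omega)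
    simp only [List.length_drop, List.length_cons, List.length_nil] at k2
    have hr : r ≤ 2 := by omega
    have hm : m ≤ 2 := by omega
    interval_cases r <;> interval_cases m <;> simp_all
  | succ i ih =>
    obtain ⟨y', a, rfl, h1, -, -, h4⟩ := mem_V_succ.1 hy
    intro r m
    cases r with
    | zero => simpa using h4 m
    | succ r => simpa using ih h1 r m

lemma bigram_V (h : Dist c c' d e) {i : ℕ} {y : List ℕ} (hy : y ∈ V c c' d e L i) :
    ∀ r, r + 2 < y.length → ¬ (y.getD r 0 = c' ∧ y.getD (r + 1) 0 = c) := by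
  induction i generalizing y with
  | zero =>
    simp only [V, mem_singleton] at hy; subst hy
    obtain ⟨h1, h2, h3, h4, h5, h6⟩ := h
    intro r hr
    simp only [List.length_cons, List.length_nil] at hr
    have hr : r ≤ 1 := by omega
    interval_cases r <;> simp <;> tauto
  | succ i ih =>
    obtain ⟨y', a, rfl, h1, -, h3, -⟩ := mem_V_succ.1 hy
    have hlen := length_V h1
    have hne : y' ≠ [] := by intro h0; rw [h0] at hlen; simp at hlen
    intro r hr
    cases r with
    | zero => simpa using (okc_spec h.1 hne h3).1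
    | succ r => simpa using ih h1 r (by simp only [List.length_cons] at hr; omega)

lemma tail_V {i : ℕ} {y : List ℕ} (hy : y ∈ V c c' d e L i) (q : ℕ) :
    y.getD (q + i) 0 = [e, d, c', c].getD q 0 := by
  have := drop_V hy le_rfl
  rw [Nat.sub_self] at this
  simp only [V, mem_singleton] at this
  rw [← getD_drop, this]

lemma lists_V (h0 : c ∈ L 0) (h1 : c' ∈ L 1) (h2 : d ∈ L 2) (h3 : e ∈ L 3) {i : ℕ} {y : List ℕ}
    (hy : y ∈ V c c' d e L i) : ∀ q < i + 4, y.getD q 0 ∈ L (i + 3 - q) := by
  induction i generalizing y with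
  | zero =>
    simp only [V, mem_singleton] at hy; subst hy
    intro q hq
    interval_cases q <;> simpa
  | succ i ih =>
    obtain ⟨y', a, rfl, k1, k2, -⟩ := mem_V_succ.1 hy
    intro q hq
    cases q with
    | zero => simpa using k2
    | succ q =>
      have := ih k1 q (by omega)
      rw [show i + 1 + 3 - (q + 1) = i + 3 - q by omega]
      simpa using this

lemma sum_ind (a : ℕ → ℕ) (k N : ℕ) :
    ∑ t ∈ range (N + 1), (if k ≤ N - t then 1 else 0) * a t = ∑ m ∈ Icc k N, a (N - m) := by
  simp_rw [ite_mul, one_mul, zero_mul]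
  rw [← sum_filter]
  refine sum_nbij' (fun m => N - m) (fun t => N - t) ?_ ?_ ?_ ?_ ?_
  · intro m hm; simp only [mem_Icc, mem_range, mem_filter] at hm ⊢; omega
  · intro m hm; simp only [mem_Icc, mem_range, mem_filter] at hm ⊢; omega
  · intro m hm; simp only [mem_range, mem_filter] at hm; omega
  · intro m hm; simp only [mem_Icc] at hm; omega
  · intro m hm
    simp only [mem_range, mem_filter] at hm
    congr 1; omega

def BadA (c N m : ℕ) (y : List ℕ) : Prop := 2 * m ≤ N + 4 ∧ Sq (c :: y) m
def BadB (N r : ℕ) (y : List ℕ) : Prop :=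
  2 * (r + 1) ≤ N + 4 ∧ ∀ q < r, y.getD q 0 = y.getD (q + (N + 3 - r)) 0

lemma exists_good (h : Dist c c' d e) (hL : ∀ k, (L k).card = 4) (N : ℕ) :
    ∃ y ∈ V c c' d e L N, (∀ m, ¬ BadA c N m y) ∧ ∀ r, 3 ≤ r → ¬ BadB N r y := by
  classical
  by_contra hcon
  push Not at hcon
  have t1 := total h hL N
  unfold fin at t1
  simp_rw [add_mul] at t1
  rw [sum_add_distrib, sum_ind (fun t => (V c c' d e L t).card),
    sum_ind (fun t => (V c c' d e L t).card)] at t1
  have t2 : ∑ y ∈ V c c' d e L N, phi 0 (st c c' y) ≤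
      ∑ m ∈ Icc 4 N, ((V c c' d e L N).filter (BadA c N m)).card +
      ∑ r ∈ Icc 3 N, ((V c c' d e L N).filter (BadB N r)).card := by
    simp_rw [card_filter]
    rw [sum_comm (s := Icc 4 N), sum_comm (s := Icc 3 N), ← sum_add_distrib]
    refine sum_le_sum fun y hy => ?_
    obtain ⟨f1, f2⟩ := F4 (st_V h hy)
    by_cases h0 : phi 0 (st c c' y) = 0
    · omega
    have f3 := closeB_spec (f2 h0)
    by_cases hA : ∃ m, BadA c N m y
    · obtain ⟨m, hm⟩ := hA
      have hm4 : 4 ≤ m := by
        by_contra hh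
        exact f3 m (by omega) hm.2
      have := single_le_sum (f := fun m => if BadA c N m y then 1 else 0)
        (fun _ _ => Nat.zero_le _) (mem_Icc.2 ⟨hm4, (by have := hm.1; omega : m ≤ N)⟩)
      simp only [hm, if_true] at this
      omega
    · push Not at hA
      obtain ⟨r, hr3, hr⟩ := hcon y hy hA
      have := single_le_sum (f := fun r => if BadB N r y then 1 else 0)
        (fun _ _ => Nat.zero_le _) (mem_Icc.2 ⟨hr3, (by have := hr.1; omega : r ≤ N)⟩)
      simp only [hr, if_true] at this
      omega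
  have t3 : ∀ m ∈ Icc 4 N, ((V c c' d e L N).filter (BadA c N m)).card ≤
      (V c c' d e L (N - m)).card := by
    intro m hm
    obtain ⟨hm4, hmN⟩ := mem_Icc.1 hm
    refine card_le_card_of_injOn (fun y => y.drop m) ?_ ?_
    · intro y hy
      exact drop_V (mem_filter.1 (mem_coe.1 hy)).1 hmN
    · intro y hy z hz hyz
      obtain ⟨hy1, hy2⟩ := mem_filter.1 (mem_coe.1 hy)
      obtain ⟨hz1, hz2⟩ := mem_filter.1 (mem_coe.1 hz)
      have key : ∀ w : List ℕ, Sq (c :: w) m → ∀ q < m, w.getD q 0 =
          if q + 1 < m then (w.drop m).getD q 0 else c := by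
        intro w hw q hq
        split_ifs with h1
        · have := hw.2.2 (q + 1) h1
          rw [show q + 1 + m = (q + m) + 1 by omega] at this
          rw [getD_drop]
          simpa using this
        · have := hw.2.2 0 (by omega)
          rw [show 0 + m = q + 1 by omega] at this
          simpa using this.symm
      refine ext_of_drop (by rw [length_V hy1, length_V hz1]) hyz fun q hq => ?_
      have hyz' : y.drop m = z.drop m := hyz
      rw [key y hy2.2 q hq, key z hz2.2 q hq, hyz']
  have t4 : ∀ r ∈ Icc 3 N, ((V c c' d e L N).filter (BadB N r)).card ≤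
      (V c c' d e L (N - r)).card := by
    intro r hr
    obtain ⟨hr3, hrN⟩ := mem_Icc.1 hr
    refine card_le_card_of_injOn (fun y => y.drop r) ?_ ?_
    · intro y hy
      exact drop_V (mem_filter.1 (mem_coe.1 hy)).1 hrN
    · intro y hy z hz hyz
      obtain ⟨hy1, hy2⟩ := mem_filter.1 (mem_coe.1 hy)
      obtain ⟨hz1, hz2⟩ := mem_filter.1 (mem_coe.1 hz)
      refine ext_of_drop (by rw [length_V hy1, length_V hz1]) hyz fun q hq => ?_
      have hyz' : y.drop r = z.drop r := hyz
      have e1 : q + (N + 3 - r) = (q + (N + 3 - r - r)) + r := by have := hy2.1; omega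
      rw [hy2.2 q hq, hz2.2 q hq, e1, ← getD_drop y r, ← getD_drop z r, hyz']
  have t5 := sum_le_sum t3
  have t6 := sum_le_sum t4
  omega

/-- cyclic square-freeness of `W` on `ℤ/n` -/
def CycFree (n : ℕ) (W : ℕ → ℕ) : Prop :=
  ∀ s < n, ∀ m, 1 ≤ m → 2 * m ≤ n → ¬ ∀ j < m, W ((s + j) % n) = W ((s + m + j) % n)

lemma cycFree_of_good (h : Dist c c' d e) {N : ℕ} {y : List ℕ} (hy : y ∈ V c c' d e L N)
    (hA : ∀ m, ¬ BadA c N m y) (hB : ∀ r, 3 ≤ r → ¬ BadB N r y) :
    CycFree (N + 4) (fun i => y.getD (N + 3 - i) 0) := by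
  intro s hs m hm1 hm2 hrep
  have hlen := length_V hy
  have md1 : ∀ x, x < N + 4 → x % (N + 4) = x := fun x hx => Nat.mod_eq_of_lt hx
  have md2 : ∀ x, N + 4 ≤ x → x < 2 * (N + 4) → x % (N + 4) = x - (N + 4) := by
    intro x h1 h2
    rw [Nat.mod_eq_sub_mod h1, Nat.mod_eq_of_lt (by omega)]
  have w0 : y.getD (N + 3) 0 = c := by have := tail_V hy 3; rw [add_comm] at this; simpa using this
  have w1 : y.getD (N + 2) 0 = c' := by have := tail_V hy 2; rw [add_comm] at this; simpa using this
  have w2 : y.getD (N + 1) 0 = d := by have := tail_V hy 1; rw [add_comm] at this; simpa using this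
  have w3 : y.getD N 0 = e := by have := tail_V hy 0; simpa using this
  by_cases h1 : s + 2 * m ≤ N + 4
  · -- internal square
    refine sqfree_V h hy (N + 4 - (s + 2 * m)) m ⟨hm1, by simp; omega, fun j hj => ?_⟩
    have := hrep (m - 1 - j) (by omega)
    rw [md1 _ (by omega), md1 _ (by omega)] at this
    rw [getD_drop, getD_drop]
    beta_reduce at this
    rw [show j + (N + 4 - (s + 2 * m)) = N + 3 - (s + m + (m - 1 - j)) by omega,
      show j + m + (N + 4 - (s + 2 * m)) = N + 3 - (s + (m - 1 - j)) by omega]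
    exact this.symm
  by_cases h2 : s + m ≤ N + 4
  · -- the first half lies at the end of the word
    have k0 := hrep (N + 4 - (s + m)) (by omega)
    rw [md1 _ (by omega), md2 _ (by omega) (by omega)] at k0
    beta_reduce at k0
    rw [show N + 3 - (s + (N + 4 - (s + m))) = m - 1 by omega,
      show N + 3 - (s + m + (N + 4 - (s + m)) - (N + 4)) = N + 3 by omega, w0] at k0
    by_cases h3 : s + 2 * m = N + 5
    · refine hA m ⟨hm2, hm1, by simp; omega, fun j hj => ?_⟩
      cases j with
      | zero =>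
        rw [show 0 + m = (m - 1) + 1 by omega]
        simpa using k0.symm
      | succ j =>
        have := hrep (m - 2 - j) (by omega)
        rw [md1 _ (by omega), md1 _ (by omega)] at this
        beta_reduce at this
        rw [show N + 3 - (s + (m - 2 - j)) = j + m by omega,
          show N + 3 - (s + m + (m - 2 - j)) = j by omega] at this
        rw [show j + 1 + m = (j + m) + 1 by omega]
        simpa using this.symm
    · have k1 := hrep (N + 5 - (s + m)) (by omega)
      rw [md1 _ (by omega), md2 _ (by omega) (by omega)] at k1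
      beta_reduce at k1
      rw [show N + 3 - (s + (N + 5 - (s + m))) = m - 2 by omega,
        show N + 3 - (s + m + (N + 5 - (s + m)) - (N + 4)) = N + 2 by omega, w1] at k1
      refine bigram_V h hy (m - 2) (by omega) ⟨k1, ?_⟩
      rw [show m - 2 + 1 = m - 1 by omega]; exact k0
  · -- the second half lies at the start of the word
    have k0 := hrep (N + 4 - s) (by omega)
    rw [md2 _ (by omega) (by omega), md2 _ (by omega) (by omega)] at k0
    beta_reduce at k0
    rw [show N + 3 - (s + (N + 4 - s) - (N + 4)) = N + 3 by omega,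
      show N + 3 - (s + m + (N + 4 - s) - (N + 4)) = N + 3 - m by omega, w0] at k0
    by_cases h3 : s + m = N + 5
    · have hm4 : 4 ≤ m := by
        obtain ⟨d1, d2, d3, -⟩ := h
        by_contra hh
        have hm3 : m = 2 ∨ m = 3 := by omega
        rcases hm3 with rfl | rfl
        · rw [show N + 3 - 2 = N + 1 by omega, w2] at k0; exact d2 k0
        · rw [show N + 3 - 3 = N by omega, w3] at k0; exact d3 k0
      refine hB (m - 1) (by omega) ⟨by omega, fun q hq => ?_⟩
      have := hrep (m - 2 - q) (by omega)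
      rw [md1 _ (by omega), md2 _ (by omega) (by omega)] at this
      beta_reduce at this
      rw [show N + 3 - (s + (m - 2 - q)) = q by omega,
        show N + 3 - (s + m + (m - 2 - q) - (N + 4)) = q + (N + 3 - (m - 1)) by omega] at this
      exact this
    · have k1 := hrep (N + 5 - s) (by omega)
      rw [md2 _ (by omega) (by omega), md2 _ (by omega) (by omega)] at k1
      beta_reduce at k1
      rw [show N + 3 - (s + (N + 5 - s) - (N + 4)) = N + 2 by omega,
        show N + 3 - (s + m + (N + 5 - s) - (N + 4)) = N + 2 - m by omega, w1] at k1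
      refine bigram_V h hy (N + 2 - m) (by omega) ⟨k1.symm, ?_⟩
      rw [show N + 2 - m + 1 = N + 3 - m by omega]; exact k0.symm

lemma exists_avoid (A : Finset ℕ) (hA : A.card = 4) (x y z : ℕ) :
    ∃ a ∈ A, a ≠ x ∧ a ≠ y ∧ a ≠ z := by
  have : ({x, y, z} : Finset ℕ).card < A.card := by
    have := card_le_three (a := x) (b := y) (c := z); omega
  obtain ⟨a, ha, hna⟩ := exists_mem_notMem_of_card_lt_card this
  simp only [mem_insert, mem_singleton, not_or] at hna
  exact ⟨a, ha, hna⟩

theorem exists_cycFree (n : ℕ) (hn : 3 ≤ n) (L : ℕ → Finset ℕ) (hL : ∀ k, (L k).card = 4) :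
    ∃ W : ℕ → ℕ, (∀ i < n, W i ∈ L i) ∧ CycFree n W := by
  obtain ⟨c, hc, -⟩ := exists_avoid (L 0) (hL 0) 0 0 0
  obtain ⟨c', hc', k1, -⟩ := exists_avoid (L 1) (hL 1) c c c
  obtain ⟨d, hd, k2, k3, -⟩ := exists_avoid (L 2) (hL 2) c c' c
  obtain ⟨e, he, k4, k5, k6⟩ := exists_avoid (L 3) (hL 3) c c' d
  have h : Dist c c' d e := ⟨k1.symm, k2.symm, k4.symm, k3.symm, k5.symm, k6.symm⟩
  by_cases h3 : n = 3
  · subst h3
    refine ⟨fun i => [c, c', d].getD i 0, fun i hi => ?_, ?_⟩
    · interval_cases i <;> simpa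
    · intro s hs m hm1 hm2 hrep
      have hm : m = 1 := by omega
      subst hm
      have := hrep 0 (by omega)
      interval_cases s <;> simp_all
  obtain ⟨N, rfl⟩ : ∃ N, n = N + 4 := ⟨n - 4, by omega⟩
  obtain ⟨y, hy, hA, hB⟩ := exists_good h hL N
  refine ⟨_, fun i hi => ?_, cycFree_of_good h hy hA hB⟩
  have := lists_V hc hc' hd he hy (N + 3 - i) (by omega)
  rwa [show N + 3 - (N + 3 - i) = i by omega] at this

end Pool.Agent.Work.MP_7cb3ca_co
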